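import Mathlib
import Pool.Agent.TH170.GS.Main
import Pool.Agent.TH117.GN.NC

/-!
# The noncommutative conjecture of Beilinson for dg categories over finite fields generated by abelian
varieties with almost all slope types of arbitrary CM fields

Over an algebraic closure of the field with `p` elements each abelian variety is isogenous to the
reduction of an abelian variety of CM type (Honda, Tate). So an abelian variety over the field with
`p ^ a` elements is modelled by `RedAV`: a finite product of CM types `(E i, Φ i)` with Weil numbers
`π i ∈ E i` that satisfy the formula of Shimura and Taniyama; its cohomology of degree `n`, with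
coefficients in an algebraically closed field `Ω`, consists of the alternating `n`-forms on
`Ω ⊗ H_1`, on which the Frobenius endomorphism acts by `π`. We fix an isomorphism `ν` of the algebraic
closure of `ℚ_p` with `ℂ`; it defines a `p`-adic valuation of `ℂ`, with the value one at `p`.

Let `K` be a CM field of degree `2 g`; nothing is assumed about its Galois group. Let `M` be a
function with nonzero integral values on the complex embeddings of `K`, invariant under complex
conjugation. A CM type `Φ` of `K` (a choice of one element out of each complex conjugate pair of
embeddings; there are `2 ^ g` types), `M` and a real number `κ ≠ 0` prescribe the slopes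
`(a + κ M) / 2` (at the embeddings in `Φ`) and `(a - κ M) / 2` (outside of `Φ`) of a Weil number in
`K`. If `p` splits completely in `K` then, by Honda and Tate, all slopes with rational values between
`0` and `a` that are symmetric in this way occur for abelian varieties. The case `M = 1`, `κ = a` is
the ordinary case; the assumption on `M` says that `a / 2` is not a slope. Slopes are rational, so
integral weights `M` are no restriction.

Let `K i` be finitely many CM fields, of degrees `2 g i`, that are pairwise independent: for `i ≠ k`
and all complex embeddings `φ` of `K i` and `ψ` of `K k` some automorphism of `ℂ` is the identity on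
`φ (K i)` and the complex conjugation on `ψ (K k)` (this is no condition for one field). Let `M i`
be weights as above all of whose values divide `n i`. There are `2 ^ (∑ i, g i)` families of
CM types `Φ i` of the fields `K i`. For such a family let `𝒞` (`OfTypes`) be the class of the abelian
varieties `Y` each of whose factors is supersingular or has a Frobenius endomorphism some power of
which is, for some `i`, a Weil number in `K i` with the slopes prescribed by `Φ i`, `M i` and some
real number `κ i ≠ 0` (which depends only on `Y` and `i`). So `Y` is, over an algebraic closure,
isogenous to a product of powers of one abelian variety for each `i`, with the given slopes, and of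
a supersingular one.

A family of types is exceptional (`exceptionalFamilies ν K M`) if the following fails: for all smooth
proper dg categories `𝒜` over a finite field of characteristic `p` whose noncommutative motive with
rational coefficients is a direct summand of a finite sum of the noncommutative motives of abelian
varieties `Y l` in `𝒞` the kernel of the Euler pairing on `K_0(𝒜)_ℚ` is zero. Here the assumption
(`IsGeneratedByTypes`) is used in the following form: bimodules give maps
`a l : K_0(𝒜)_ℚ → K_0(Y l)_ℚ` and `b l` in the other direction such that the sum of the `b l ∘ a l` is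
the identity, and `a l` has an adjoint `t l` for the Euler pairings; the group `K_0(Y)_ℚ` is the
product of the Chow groups `CH^j(Y)_ℚ`, and the Euler pairing is given by the theorem of Riemann, Roch
and Hirzebruch. Examples are the categories of perfect complexes on all products of varieties in `𝒞`,
on products of curves with Jacobians in `𝒞`, on the varieties generated by them, and the pieces of
semi-orthogonal decompositions of such categories.

The properties of the theory of cycles on the abelian varieties that are used (`IsChow`) are
Poincaré duality, formal properties of correspondences, the nilpotence of homologically trivial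
correspondences (Kimura), and the algebraicity of the classes in `Alg` (of which only products of
classes of divisors matter here, theorem of Tate). The passage from the Tate conjecture to this
statement is due to Soulé, Geisser, Kahn and Tabuada, and was formalized by helper117 (MP_dd457d_ag
ElementaryAbelian).

The theorem bounds the number of the exceptional families: it is at most
`2 ^ (∑ i, g i) * ∑ i, ρ (K i)`. Here `ρ (K)` (`rho n g φ₀`) is described as follows. The
automorphisms of `ℂ` act on the set of the `2 g` complex embeddings of `K` through a finite group
`G` (the Galois group of the normal closure), and so on the space `V`, of dimension `g`, of the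
rational functions on this set that change their sign under complex conjugation. Then `ρ (K)` is the
sum of the numbers `w (W)` (`weight n g φ₀ W`) over the isotypic components `W` of `V`
(`components K`):

* `w (W) = 0` if `n` is odd and every minimal Galois-stable space in `W` contains a function with
  integral values whose sum over a CM type is odd;
* otherwise `w (W) = (2 d / (π g)) ^ (d / 2)` if `W` is itself a minimal space, of dimension `d`;
* otherwise `w (W)` is the smaller of `(53 λ d / g) ^ (c / 2)` (if
  `(10 ^ 4 + 10 λ) ^ 2 λ d ≤ 2 g`; replaced by `1` if not) and
  `8 (2 d / (π g)) ^ (d / 2) (10 ^ 4 + 10 λ + 6 √(d g)) ^ (d - c)`. Here `λ = log (|G| n)`,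
  `d = dim S` for the minimal spaces `S` in `W`, and `c = e + d - h`, where `e` is the dimension of
  the space of the equivariant endomorphisms of `S` and `h` the dimension of the space of the
  functions in `S` that are invariant under the stabilizer of a complex embedding.

Let `Q` be the number of the imaginary quadratic subfields of `K` and `N d` the number of the
components `W` that are minimal spaces of dimension `d`. The second part (`RhoEstimate`) is the
estimate `ρ (K) ≤ Q / √g + 2 (N 2 + 1) / g + 3 N 3 / g ^ (3 / 2) + ∑ w (W)`, where the last sum is
over the components `W` which are not minimal, and the term `Q / √g` is omitted if `n g` is odd. The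
third part (`NoMultipleComponents`) says that there are no such components if `K` is abelian over
`ℚ`, or if any two complex embeddings of `K` are exchanged by some automorphism of `ℂ` (for instance
`K = k F` for an imaginary quadratic field `k` and a totally real field `F` with this property, such
as the fields of degree `binomial (n, m)` which belong to the sets with `m` elements of roots of a
polynomial of degree `n` with real roots and Galois group `S_n`). Always `N 3 ≤ g / 3`; if `K` is
cyclic over `ℚ` then `g` is odd or `Q = 0`, and `N 2 ≤ 2`, `N 3 = 0`.

The proof: if there are relations between the Frobenius eigenvalues of `Z` that are not generated by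
those of the complex conjugate pairs, then for one of the types the sign function, multiplied by
`M`, is orthogonal to a minimal Galois-stable space. The number of these sign functions is estimated by a Fourier integral and the
inequality of Hölder. There are in general infinitely many minimal spaces isomorphic to `S`, but
modulo a prime number `ℓ` that does not divide `|G| n` there are only about `ℓ ^ (h - e)` of them.
-/

namespace Pool.Agent.Results.MP_dd457d_ag.AlmostAllSlopeTypes

open NumberField Module Pool.Agent.H204R3.CM Pool.Agent.H977R3.CM Pool.Agent.TH170

open Pool.Agent.W495.TA Pool.Agent.W495.FM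

open Pool.Agent.TH117.GN.NC (Bimodules IsNCSummand)

/-- The noncommutative motive of `𝒜`, with `H = K_0(𝒜)_ℚ` and the Euler pairing `χ`, is a direct summand
of a finite sum of noncommutative motives of abelian varieties with the slope types `Φ`. -/
def IsGeneratedByTypes {p : ℕ} [Fact p.Prime] (ν : PadicAlgCl p ≃+* ℂ) {I : Type} (K : I → Type)
    [∀ i, Field (K i)] (M : ∀ i, (K i →+* ℂ) → ℤ) (Φ : ∀ i, Set (K i →+* ℂ)) (Ω : Type) [Field Ω]
    [CharZero Ω] {H : Type} [AddCommGroup H] (χ : H → H → ℚ) : Prop :=
  ∃ (J : Type) (_ : Fintype J) (Y : J → RedAV p ν) (C : ∀ l, Cycles Ω (Y l)) (g : J → ℕ)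
    (R : Bimodules H C), (∀ l, GS.OfTypes K M Φ (Y l)) ∧ (∀ l, IsChow (C l)) ∧ IsNCSummand χ g R

/-- For all smooth proper dg categories generated by abelian varieties with the slope types `Φ` an
element of `K_0(𝒜)_ℚ` in the kernel of the Euler pairing is zero. -/
def Holds {p : ℕ} [Fact p.Prime] (ν : PadicAlgCl p ≃+* ℂ) {I : Type} (K : I → Type)
    [∀ i, Field (K i)] (M : ∀ i, (K i →+* ℂ) → ℤ) (Φ : ∀ i, Set (K i →+* ℂ)) : Prop :=
  ∀ (Ω : Type) [Field Ω] [IsAlgClosed Ω] [CharZero Ω] (H : Type) [AddCommGroup H]
    (χ : H → H → ℚ), IsGeneratedByTypes ν K M Φ Ω χ → ∀ x : H, (∀ z, χ z x = 0) → x = 0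

/-- The exceptional families of CM types. -/
def exceptionalFamilies {p : ℕ} [Fact p.Prime] (ν : PadicAlgCl p ≃+* ℂ) {I : Type} (K : I → Type)
    [∀ i, Field (K i)] (M : ∀ i, (K i →+* ℂ) → ℤ) : Set (∀ i, Set (K i →+* ℂ)) :=
  {Φ | (∀ i, IsCMType (Φ i)) ∧ ¬ Holds ν K M Φ}

theorem holds_of {p : ℕ} [Fact p.Prime] {ν : PadicAlgCl p ≃+* ℂ} {I : Type} (K : I → Type)
    [∀ i, Field (K i)] (M : ∀ i, (K i →+* ℂ) → ℤ) (Φ : ∀ i, Set (K i →+* ℂ))
    (h : ∀ Y : RedAV p ν, GS.OfTypes K M Φ Y → ∃ Z : RedAV p ν,
      TH117.BL.HasElementaryRelations Z ∧ TH117.BL.IsPowersTimesSupersingular Z Y) :
    Holds ν K M Φ := by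
  intro Ω _ _ _ H _ χ hX
  obtain ⟨J, hJ, Y, C, g, R, h1, h2, h3⟩ := hX
  choose Z hZ1 hZ2 using fun l => h (Y l) (h1 l)
  exact TH117.GN.NC.ker ⟨J, hJ, Y, Z, C, g, R, hZ1, hZ2, h2, h3⟩

/-- **The noncommutative conjecture of Beilinson for all dg categories generated by abelian varieties
with almost all slope types of CM fields.** -/
theorem result :
    (∀ (p : ℕ) [Fact p.Prime] (ν : PadicAlgCl p ≃+* ℂ) {I : Type} [Fintype I] (K : I → Type)
      [∀ i, Field (K i)] [∀ i, NumberField (K i)] [∀ i, IsCMField (K i)]
      (M : ∀ i, (K i →+* ℂ) → ℤ) (n g : I → ℕ) (φ₀ : ∀ i, K i →+* ℂ), PairwiseIndep K →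
      (∀ i φ, M i (ComplexEmbedding.conjugate φ) = M i φ) → (∀ i, n i ≠ 0) →
      (∀ i φ, M i φ ∣ (n i : ℤ)) → (∀ i, finrank ℚ (K i) = 2 * g i) →
      ((exceptionalFamilies ν K M).ncard : ℝ) ≤
        2 ^ (∑ i, g i) * ∑ i, GS.rho (n i) (g i) (φ₀ i)) ∧
    GS.RhoEstimate ∧ GS.NoMultipleComponents :=
  ⟨fun _ _ ν _ _ K _ _ _ M n g φ₀ hind hM hn hMn hg =>
    GS.ncard_le ν K M n g φ₀ hind hM hn hMn hg _ fun Φ h => holds_of K M Φ h,
    GS.rhoEstimate, GS.noMultipleComponents⟩

end Pool.Agent.Results.MP_dd457d_ag.AlmostAllSlopeTypes
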