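import Pool.Agent.TH117.GN.NC

/-!
# The noncommutative conjecture of Beilinson for dg categories generated by abelian varieties with
elementary relations between the Frobenius eigenvalues

Over an algebraic closure of the field with `p` elements each abelian variety is isogenous to the
reduction of an abelian variety of CM type (Honda, Tate). So an abelian variety over the field with
`p ^ a` elements is modelled by `RedAV`: a finite product of CM types `(E i, Φ i)` with Weil numbers
`π i ∈ E i` that satisfy the formula of Shimura and Taniyama; its cohomology of degree `n`, with
coefficients in an algebraically closed field `Ω`, consists of the alternating `n`-forms on
`Ω ⊗ H_1`, on which the Frobenius endomorphism acts by `π`.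

We consider the abelian varieties `Y` that are, over an algebraic closure, isogenous to a product of a
supersingular abelian variety and of powers of the factors of an abelian variety `Z` (any dimension,
any Newton polygons) such that the multiplicative relations between the Frobenius eigenvalues of `Z`,
the square root of the number `q` of elements of the ground field and roots of unity are generated by
relations of the following kinds (`HasElementaryRelations`):

* relations that involve at most two eigenvalues;
* Weil relations of imaginary quadratic fields on products of factors of `Z` of dimension three, four
  or five, or of dimension six if `p` splits in the quadratic field;
* relations between the Frobenius eigenvalues of a product of factors of `Z` of dimension at most five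
  no two of which form an exceptional pair (`IsExceptionalPair`);
* relations between the Frobenius eigenvalues of a product of factors of `Z` of dimension at most
  three, such that any two of these factors whose CM fields have the same Galois closure over `ℚ` are
  isogenous, unless these CM fields are Galois over `ℚ` or one of the two factors is supersingular.

Let `𝒜` be a smooth proper dg category over a finite field whose noncommutative motive (with rational
coefficients) is a direct summand of a finite sum of the noncommutative motives of such abelian
varieties `Y l`: bimodules give maps `a l : K_0(𝒜)_ℚ → K_0(Y l)_ℚ` and `b l` in the other direction such
that the sum of the `b l ∘ a l` is the identity, and `a l` has an adjoint `t l` for the Euler pairings.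
The group `K_0(Y)_ℚ` is the product of the Chow groups `CH^j(Y)_ℚ`, and the Euler pairing is given by the
theorem of Riemann, Roch and Hirzebruch (the Todd class of an abelian variety is trivial).

Then `Ker (χ_ℚ) = 0` for `𝒜`. Examples: perfect complexes on all powers of all abelian varieties of
dimension at most five without exceptional pairs of factors, on products of curves (in any number)
such that the product of the simple factors of their Jacobians is as above, the pieces of
semi-orthogonal decompositions of such categories, twisted forms and finite quotients.

The properties of the theory of cycles on the abelian varieties `Y` that are used (`IsChow`) are
Poincaré duality, formal properties of correspondences, the nilpotence of homologically trivial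
correspondences (Kimura) and the algebraicity of the classes in `Alg` (theorems of Tate and Markman).
-/

namespace Pool.Agent.Results.MP_dd457d_ag.ElementaryAbelian

open Pool.Agent.TH117.GN.NC

/-- An element of `K_0(𝒜)_ℚ` in the kernel of the Euler pairing is zero. -/
theorem result (p : ℕ) [Fact p.Prime] (ν : PadicAlgCl p ≃+* ℂ) (Ω : Type) [Field Ω]
    [IsAlgClosed Ω] [CharZero Ω] (K : Type) [AddCommGroup K] (χ : K → K → ℚ)
    (hK : IsGenerated p ν Ω χ) (x : K) (hx : ∀ z, χ z x = 0) : x = 0 :=
  ker hK x hx

end Pool.Agent.Results.MP_dd457d_ag.ElementaryAbelian
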